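import Mathlib
import Pool.Agent.R317.SDFin
import Pool.Agent.R317.SDLT

/-!
# Self-decomposability of four modified Bessel distributions

All four families (A), (B), (C), (D) are self-decomposable for every choice of the parameters in
the stated ranges.
-/

namespace Pool.Agent.Results.MP_749de9_pr.AllSelfDecomposable

open Set Filter Topology MeasureTheory
open Pool.Agent.R317.SD

/-- family (A) -/
noncomputable def chiA (a b μ ν x : ℝ) : ℝ :=
  (2 : ℝ) ^ (μ - ν + 1) * Real.Gamma (μ + 1) * b ^ ν / (a ^ μ * Real.Gamma ν) *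
    Real.exp (-(a * √x)) * x ^ ((ν - μ) / 2) * besselI μ (a * √x) * besselK ν (b * √x)

/-- family (B) -/
noncomputable def zetaB (a b μ ν x : ℝ) : ℝ :=
  (2 : ℝ) ^ (μ + ν) * Real.Gamma (μ + 1) * Real.Gamma (ν + 1) / (a ^ μ * b ^ ν) *
    Real.exp (-((a + b) * √x)) * x ^ (-((μ + ν) / 2)) * besselI μ (a * √x) * besselI ν (b * √x)

/-- family (C) -/
noncomputable def epsC (a b μ ν x : ℝ) : ℝ :=
  (2 : ℝ) ^ (μ + ν - 1) * Real.Gamma ν * Real.Gamma (μ + 1) / (a ^ μ * b ^ ν) *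
    Real.exp (-((a + b) * √x)) * x ^ (-((μ + ν) / 2)) * (besselI μ (a * √x) / besselK ν (b * √x))

/-- family (D) -/
noncomputable def rhoD (a b μ ν x : ℝ) : ℝ :=
  a ^ μ * b ^ ν / ((2 : ℝ) ^ (μ + ν - 1) * Real.Gamma ν * Real.Gamma (μ + 1)) *
    x ^ ((μ + ν) / 2) * (besselK ν (b * √x) / besselI μ (a * √x))

lemma sq_mul {a x : ℝ} (hx : 0 < x) : (a * √x) ^ 2 = a ^ 2 * x := by
  rw [mul_pow, Real.sq_sqrt hx.le]

lemma exp_eq {a x : ℝ} (ha : 0 < a) : √(a ^ 2 * x) = a * √x := by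
  rw [Real.sqrt_mul (by positivity), Real.sqrt_sq ha.le]

lemma rpow_half {x : ℝ} (hx : 0 < x) (p : ℝ) : x ^ (p / 2) = √x ^ p := by
  rw [Real.sqrt_eq_rpow, ← Real.rpow_mul hx.le]
  congr 1
  ring

/-- `I_μ(a √x)` -/
lemma I_eq {a μ x : ℝ} (ha : 0 < a) (hμ : -1 < μ) (hx : 0 < x) :
    besselI μ (a * √x) = a ^ μ * √x ^ μ / 2 ^ μ / Real.Gamma (μ + 1) * F μ (a ^ 2 * x) := by
  have hs : 0 < √x := Real.sqrt_pos.2 hx
  rw [(st_I μ hμ).2.2.2.2.2 (a * √x) (by positivity), sq_mul hx,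
    Real.div_rpow (by positivity) (by norm_num), Real.mul_rpow ha.le hs.le]

/-- `K_ν(b √x)` -/
lemma K_eq {b ν x : ℝ} (hb : 0 < b) (hx : 0 < x) :
    besselK ν (b * √x) = 2 ^ ν / (2 * (b ^ ν * √x ^ ν)) * κ ν (b ^ 2 * x) := by
  have hs : 0 < √x := Real.sqrt_pos.2 hx
  rw [st_K.2.2 ν (b * √x) (by positivity), sq_mul hx, Real.rpow_neg (by positivity),
    Real.div_rpow (by positivity) (by norm_num), Real.mul_rpow hb.le hs.le]
  have h1 : 0 < b ^ ν := Real.rpow_pos_of_pos hb _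
  have h2 : 0 < √x ^ ν := Real.rpow_pos_of_pos hs _
  have h3 : (0 : ℝ) < 2 ^ ν := Real.rpow_pos_of_pos two_pos _
  field_simp

lemma block_chiA {a b μ ν : ℝ} (ha : 0 < a) (hb : 0 < b) (hμ : 1 / 2 < μ) (hν : 0 < ν) :
    Block (chiA a b μ ν) := by
  apply (((block1 hμ).scale (s := a ^ 2) (by positivity)).mul
    ((block2 hν).scale (s := b ^ 2) (by positivity))).congr
  intro x hx
  have hs : 0 < √x := Real.sqrt_pos.2 hx
  unfold chiA
  rw [exp_eq ha, I_eq ha (by linarith) hx, K_eq hb hx, rpow_half hx, Real.rpow_sub hs,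
    Real.rpow_add two_pos, Real.rpow_sub two_pos, Real.rpow_one]
  have h1 : 0 < b ^ ν := Real.rpow_pos_of_pos hb _
  have h2 : 0 < √x ^ ν := Real.rpow_pos_of_pos hs _
  have h3 : (0 : ℝ) < 2 ^ ν := Real.rpow_pos_of_pos two_pos _
  have h4 : 0 < a ^ μ := Real.rpow_pos_of_pos ha _
  have h5 : 0 < √x ^ μ := Real.rpow_pos_of_pos hs _
  have h6 : (0 : ℝ) < 2 ^ μ := Real.rpow_pos_of_pos two_pos _
  have h7 : 0 < Real.Gamma (μ + 1) := Real.Gamma_pos_of_pos (by linarith)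
  have h8 : 0 < Real.Gamma ν := Real.Gamma_pos_of_pos hν
  field_simp

lemma block_zetaB {a b μ ν : ℝ} (ha : 0 < a) (hb : 0 < b) (hμ : 1 / 2 < μ) (hν : 1 / 2 < ν) :
    Block (zetaB a b μ ν) := by
  apply (((block1 hμ).scale (s := a ^ 2) (by positivity)).mul
    ((block1 hν).scale (s := b ^ 2) (by positivity))).congr
  intro x hx
  have hs : 0 < √x := Real.sqrt_pos.2 hx
  unfold zetaB
  rw [exp_eq ha, exp_eq hb, I_eq ha (by linarith) hx, I_eq hb (by linarith) hx,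
    Real.rpow_neg hx.le, rpow_half hx, Real.rpow_add hs, Real.rpow_add two_pos]
  have h1 : 0 < b ^ ν := Real.rpow_pos_of_pos hb _
  have h2 : 0 < √x ^ ν := Real.rpow_pos_of_pos hs _
  have h3 : (0 : ℝ) < 2 ^ ν := Real.rpow_pos_of_pos two_pos _
  have h4 : 0 < a ^ μ := Real.rpow_pos_of_pos ha _
  have h5 : 0 < √x ^ μ := Real.rpow_pos_of_pos hs _
  have h6 : (0 : ℝ) < 2 ^ μ := Real.rpow_pos_of_pos two_pos _
  have h7 : 0 < Real.Gamma (μ + 1) := Real.Gamma_pos_of_pos (by linarith)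
  have h8 : 0 < Real.Gamma (ν + 1) := Real.Gamma_pos_of_pos (by linarith)
  have h9 : Real.exp (-((a + b) * √x)) = Real.exp (-(a * √x)) * Real.exp (-(b * √x)) := by
    rw [← Real.exp_add]
    congr 1
    ring
  rw [h9]
  field_simp

lemma block_epsC {a b μ ν : ℝ} (ha : 0 < a) (hb : 0 < b) (hμ : 1 / 2 < μ) (hν : 1 / 2 < ν) :
    Block (epsC a b μ ν) := by
  apply (((block1 hμ).scale (s := a ^ 2) (by positivity)).mul
    ((block3 hν).scale (s := b ^ 2) (by positivity))).congr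
  intro x hx
  have hs : 0 < √x := Real.sqrt_pos.2 hx
  unfold epsC
  rw [exp_eq ha, exp_eq hb, I_eq ha (by linarith) hx, K_eq hb hx,
    Real.rpow_neg hx.le, rpow_half hx, Real.rpow_add hs, Real.rpow_sub two_pos,
    Real.rpow_add two_pos, Real.rpow_one]
  have h1 : 0 < b ^ ν := Real.rpow_pos_of_pos hb _
  have h2 : 0 < √x ^ ν := Real.rpow_pos_of_pos hs _
  have h3 : (0 : ℝ) < 2 ^ ν := Real.rpow_pos_of_pos two_pos _
  have h4 : 0 < a ^ μ := Real.rpow_pos_of_pos ha _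
  have h5 : 0 < √x ^ μ := Real.rpow_pos_of_pos hs _
  have h6 : (0 : ℝ) < 2 ^ μ := Real.rpow_pos_of_pos two_pos _
  have h7 : 0 < Real.Gamma (μ + 1) := Real.Gamma_pos_of_pos (by linarith)
  have h8 : 0 < Real.Gamma ν := Real.Gamma_pos_of_pos (by linarith)
  have h10 : 0 < κ ν (b ^ 2 * x) := (st_K.1 ν _ (by positivity)).1
  have h9 : Real.exp (-((a + b) * √x)) = Real.exp (-(a * √x)) * Real.exp (-(b * √x)) := by
    rw [← Real.exp_add]
    congr 1
    ring
  rw [h9]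
  field_simp

lemma block_rhoD {a b μ ν : ℝ} (ha : 0 < a) (hb : 0 < b) (hμ : -1 < μ) (hν : 0 < ν) :
    Block (rhoD a b μ ν) := by
  apply (((block2 hν).scale (s := b ^ 2) (by positivity)).mul
    ((block4 hμ).scale (s := a ^ 2) (by positivity))).congr
  intro x hx
  have hs : 0 < √x := Real.sqrt_pos.2 hx
  unfold rhoD
  rw [I_eq ha hμ hx, K_eq hb hx, rpow_half hx, Real.rpow_add hs, Real.rpow_sub two_pos,
    Real.rpow_add two_pos, Real.rpow_one]
  have h1 : 0 < b ^ ν := Real.rpow_pos_of_pos hb _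
  have h2 : 0 < √x ^ ν := Real.rpow_pos_of_pos hs _
  have h3 : (0 : ℝ) < 2 ^ ν := Real.rpow_pos_of_pos two_pos _
  have h4 : 0 < a ^ μ := Real.rpow_pos_of_pos ha _
  have h5 : 0 < √x ^ μ := Real.rpow_pos_of_pos hs _
  have h6 : (0 : ℝ) < 2 ^ μ := Real.rpow_pos_of_pos two_pos _
  have h7 : 0 < Real.Gamma (μ + 1) := Real.Gamma_pos_of_pos (by linarith)
  have h8 : 0 < Real.Gamma ν := Real.Gamma_pos_of_pos hν
  have h10 : 0 < F μ (a ^ 2 * x) :=
    lt_of_lt_of_le one_pos ((st_I μ hμ).2.2.1 _ (by positivity))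
  field_simp

/-- `L` is the Laplace transform of exactly one probability measure on `[0, ∞)`, and this measure
is self-decomposable. -/
def IsSelfDecomposableTransform (L : ℝ → ℝ) : Prop :=
  ∃ P : Measure ℝ, IsLT P L ∧ (∀ P' : Measure ℝ, IsLT P' L → P' = P) ∧ SelfDecomposable P

lemma of_block {L : ℝ → ℝ} (h : Block L) : IsSelfDecomposableTransform L :=
  st_LT L h.cm h.ratio h.pos h.lim

/-- **All four families are self-decomposable, for all parameters in range.** -/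
theorem result :
    (∀ a b μ ν : ℝ, 0 < a → 0 < b → 1 / 2 < μ → 0 < ν →
      IsSelfDecomposableTransform (chiA a b μ ν)) ∧
    (∀ a b μ ν : ℝ, 0 < a → 0 < b → 1 / 2 < μ → 1 / 2 < ν →
      IsSelfDecomposableTransform (zetaB a b μ ν)) ∧
    (∀ a b μ ν : ℝ, 0 < a → 0 < b → 1 / 2 < μ → 1 / 2 < ν →
      IsSelfDecomposableTransform (epsC a b μ ν)) ∧
    (∀ a b μ ν : ℝ, 0 < a → 0 < b → -1 < μ → 0 < ν →
      IsSelfDecomposableTransform (rhoD a b μ ν)) :=
  ⟨fun _ _ _ _ ha hb hμ hν => of_block (block_chiA ha hb hμ hν),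
   fun _ _ _ _ ha hb hμ hν => of_block (block_zetaB ha hb hμ hν),
   fun _ _ _ _ ha hb hμ hν => of_block (block_epsC ha hb hμ hν),
   fun _ _ _ _ ha hb hμ hν => of_block (block_rhoD ha hb hμ hν)⟩

end Pool.Agent.Results.MP_749de9_pr.AllSelfDecomposable
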